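import Pool.Agent.Helper2.EG.Tab

/-!
Residue tables (A25).
-/

set_option autoImplicit false

namespace Pool.Agent.Helper2.EG

def tab_25_18 : List (ℕ × ℕ) :=
  [(1,1), (12,4), (4,17), (4,17), (2,9), (1,1), (12,4), (4,17), (4,17), (2,9), (1,1), (12,4),
   (4,4), (4,17), (2,9), (1,1), (12,4), (4,9), (4,17), (2,9), (1,1), (12,4), (4,14), (4,17),
   (2,9)]

set_option maxRecDepth 100000 in
theorem all_25_18 : All 25 18 :=
  tab_all (tab_25_18) (by decide) (by decide +kernel) (by decide +kernel)

theorem st_A25 : ST_A25 := all_25_18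

end Pool.Agent.Helper2.EG
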