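import Pool.Agent.Helper2.EG.Tab

/-!
Residue tables (A373).
-/

set_option autoImplicit false

namespace Pool.Agent.Helper2.EG

def tab_373_182 : List (ℕ × ℕ) :=
  [(1,1), (1,14), (1,73), (1,56), (1,100), (1,136), (2,88), (1,52), (1,289), (5,62), (4,320),
   (3,102), (2,99), (1,87), (1,327), (7,126), (1,290), (1,150), (1,46), (2,136), (3,29), (1,57),
   (2,71), (2,6), (1,57), (7,320), (1,40), (1,156), (1,43), (7,33), (1,28), (6,16), (1,35),
   (2,100), (1,22), (1,130), (3,37), (3,132), (7,66), (4,12), (6,209), (1,86), (2,55), (2,82),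
   (3,71), (1,82), (2,73), (1,178), (1,6), (2,23), (5,17), (4,71), (5,115), (1,60), (4,46),
   (1,55), (3,183), (1,54), (3,17), (3,41), (1,61), (1,209), (2,159), (1,86), (1,86), (1,89),
   (1,21), (1,166), (1,129), (4,62), (2,236), (1,168), (2,57), (1,293), (1,92), (2,220), (2,35),
   (1,5), (2,4), (10,48), (2,151), (1,136), (5,89), (3,37), (1,95), (3,172), (4,248), (2,67),
   (2,183), (1,88), (1,14), (2,254), (1,60), (1,242), (2,247), (5,73), (1,102), (1,28), (1,40),
   (1,123), (1,202), (1,29), (1,33), (2,272), (2,243), (2,313), (2,103), (2,21), (1,327), (1,1),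
   (3,54), (3,45), (1,168), (3,247), (6,97), (1,96), (1,26), (1,88), (1,38), (4,195), (5,103),
   (6,12), (1,82), (3,6), (1,136), (2,193), (1,60), (1,67), (2,26), (1,46), (2,196), (3,96),
   (1,174), (4,118), (1,33), (2,233), (3,96), (1,248), (6,103), (1,110), (1,27), (1,6), (1,28),
   (1,93), (1,96), (1,43), (2,260), (3,46), (2,168), (1,205), (2,282), (1,110), (2,17), (1,45),
   (4,151), (2,50), (1,195), (3,196), (3,31), (2,254), (1,223), (2,73), (1,263), (1,186), (1,41),
   (1,28), (1,261), (2,118), (1,99), (1,61), (2,243), (1,1), (7,86), (3,152), (1,38), (5,42),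
   (1,210), (1,159), (1,210), (1,194), (1,302), (3,171), (2,43), (1,37), (1,89), (1,38), (3,101),
   (1,38), (1,89), (1,37), (5,73), (2,210), (1,302), (1,194), (1,210), (1,159), (1,210), (2,239),
   (1,38), (5,1), (2,102), (1,1), (3,87), (1,61), (1,99), (2,16), (1,261), (1,28), (1,41),
   (1,186), (1,263), (3,54), (1,223), (3,196), (6,149), (2,181), (1,195), (3,67), (3,33), (1,45),
   (3,101), (1,110), (2,26), (1,205), (3,29), (2,260), (2,247), (1,43), (1,96), (1,93), (1,28),
   (1,6), (1,27), (1,110), (2,14), (1,248), (2,233), (2,22), (1,33), (2,332), (1,174), (2,196),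
   (2,260), (1,46), (2,101), (1,67), (1,60), (3,6), (1,136), (5,123), (1,82), (6,79), (3,27),
   (5,220), (1,38), (1,88), (1,26), (1,96), (3,54), (2,40), (1,168), (5,156), (4,130), (1,1),
   (1,327), (2,103), (2,313), (2,243), (2,272), (4,243), (1,33), (1,29), (1,202), (1,123),
   (1,40), (1,28), (1,102), (2,247), (6,96), (1,242), (1,60), (2,17), (1,14), (1,88), (2,67),
   (3,172), (5,89), (3,37), (1,95), (4,261), (6,83), (1,136), (5,152), (2,4), (4,14), (1,5),
   (2,220), (7,85), (1,92), (1,293), (4,62), (1,168), (3,92), (3,102), (1,129), (1,166), (1,21),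
   (1,89), (1,86), (1,86), (2,166), (1,209), (1,61), (4,175), (2,126), (1,54), (5,115), (1,55),
   (2,123), (1,60), (5,110), (3,67), (2,23), (2,77), (1,6), (1,178), (2,118), (1,82), (2,82),
   (2,55), (2,82), (1,86), (5,66), (3,132), (3,37), (3,223), (4,86), (1,130), (1,22), (8,102),
   (1,35), (4,50), (1,28), (2,166), (1,43), (1,156), (1,40), (5,126), (1,57), (2,71), (3,29),
   (1,57), (2,136), (3,208), (1,46), (1,150), (1,290), (7,35), (1,327), (1,87), (5,92), (4,300),
   (3,263), (2,26), (1,289), (1,52), (2,152), (1,136), (1,100), (1,56), (1,73), (1,14), (2,99)]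

set_option maxRecDepth 100000 in
theorem all_373_182 : All 373 182 :=
  tab_all (tab_373_182) (by decide) (by decide +kernel) (by decide +kernel)

def tab_373_109 : List (ℕ × ℕ) :=
  [(1,1), (2,37), (3,111), (2,249), (4,169), (1,41), (5,55), (2,77), (1,352), (5,82), (1,108),
   (1,84), (2,77), (2,301), (1,260), (1,136), (1,82), (1,42), (1,97), (2,256), (4,33), (1,10),
   (2,135), (1,11), (1,216), (1,73), (2,236), (3,31), (1,75), (1,109), (2,282), (2,175), (1,47),
   (1,286), (2,112), (4,37), (1,207), (1,325), (2,55), (1,296), (2,41), (3,24), (3,136), (2,48),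
   (7,260), (2,282), (7,65), (1,236), (4,108), (4,55), (4,234), (3,152), (4,99), (3,306), (1,1),
   (1,158), (3,285), (1,107), (3,120), (1,11), (1,216), (3,158), (3,27), (1,32), (1,55), (2,136),
   (1,33), (1,132), (4,127), (2,214), (1,33), (2,126), (1,189), (1,318), (1,53), (1,24), (1,57),
   (1,178), (2,61), (2,145), (2,60), (3,256), (1,127), (1,42), (2,11), (1,93), (6,96), (1,25),
   (2,292), (1,47), (1,196), (1,126), (1,260), (3,54), (7,127), (4,126), (2,135), (7,47), (1,14),
   (3,32), (7,235), (4,160), (1,164), (1,54), (7,152), (3,78), (1,25), (1,59), (1,175), (1,161),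
   (1,10), (1,89), (4,73), (1,184), (2,110), (2,232), (3,203), (2,296), (1,255), (2,11), (5,119),
   (1,135), (4,78), (5,203), (2,141), (1,219), (1,28), (3,108), (1,123), (2,175), (2,165),
   (1,131), (1,42), (3,62), (3,301), (3,229), (1,14), (2,109), (1,138), (1,173), (3,148),
   (1,109), (3,26), (1,119), (1,53), (2,107), (1,242), (2,99), (1,96), (4,236), (2,33), (2,151),
   (2,36), (4,160), (6,25), (2,111), (1,28), (1,308), (1,295), (1,77), (1,73), (3,75), (2,197),
   (4,28), (3,120), (1,89), (2,126), (1,58), (1,175), (1,28), (1,58), (5,62), (1,60), (2,54),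
   (3,48), (2,126), (1,34), (3,185), (1,84), (3,62), (3,184), (2,119), (1,160), (3,36), (1,123),
   (1,107), (3,219), (1,107), (1,123), (3,57), (1,160), (3,62), (3,211), (3,185), (1,84), (3,25),
   (1,34), (5,62), (2,54), (2,18), (1,60), (3,118), (1,58), (1,28), (1,175), (1,58), (2,123),
   (1,89), (4,80), (2,197), (3,54), (2,26), (1,73), (1,77), (1,295), (1,308), (1,28), (6,53),
   (6,346), (2,36), (2,151), (2,33), (3,93), (3,337), (1,96), (4,24), (1,242), (2,173), (1,53),
   (1,119), (3,148), (1,109), (2,147), (1,173), (1,138), (3,229), (1,14), (3,62), (5,60),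
   (3,187), (1,42), (1,131), (2,175), (3,108), (1,123), (2,118), (1,28), (1,219), (5,119),
   (11,77), (4,37), (1,135), (2,11), (2,242), (1,255), (3,10), (2,232), (2,110), (2,157),
   (1,184), (2,173), (1,89), (1,10), (1,161), (1,175), (1,59), (1,25), (5,42), (2,164), (1,54),
   (1,164), (3,32), (5,64), (2,120), (1,14), (2,135), (8,97), (3,54), (3,135), (4,188), (1,260),
   (1,126), (1,196), (1,47), (6,41), (1,25), (2,89), (1,93), (2,33), (1,42), (1,127), (2,60),
   (2,145), (2,61), (4,267), (1,178), (1,57), (1,24), (1,53), (1,318), (1,189), (4,127), (1,33),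
   (3,268), (2,48), (1,132), (1,33), (2,203), (1,55), (1,32), (3,14), (2,139), (1,216), (1,11),
   (2,62), (1,107), (2,120), (1,158), (1,1), (3,152), (4,55), (4,108), (4,241), (8,318), (6,55),
   (1,236), (2,282), (3,48), (2,48), (3,24), (4,45), (2,41), (2,141), (1,296), (3,216), (1,325),
   (1,207), (2,112), (4,173), (1,286), (1,47), (2,282), (3,234), (1,109), (1,75), (2,236),
   (4,82), (1,73), (1,216), (1,11), (2,53), (1,10), (2,256), (3,40), (1,97), (1,42), (1,82),
   (1,136), (1,260), (2,77), (6,158), (1,84), (1,108), (3,145), (1,352), (3,32), (9,61), (1,41),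
   (2,249), (3,75), (2,37), (6,235), (2,33)]

set_option maxRecDepth 100000 in
theorem all_373_109 : All 373 109 :=
  tab_all (tab_373_109) (by decide) (by decide +kernel) (by decide +kernel)

def tab_373_54 : List (ℕ × ℕ) :=
  [(1,1), (2,304), (3,41), (2,5), (3,172), (2,272), (2,236), (1,59), (1,80), (2,163), (1,122),
   (4,365), (2,24), (1,1), (3,25), (1,236), (1,26), (5,241), (5,99), (2,85), (1,55), (1,340),
   (1,140), (2,275), (1,211), (2,14), (4,143), (1,5), (1,126), (1,294), (2,166), (1,296), (1,99),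
   (3,126), (1,1), (1,122), (1,86), (1,107), (2,7), (2,124), (1,143), (4,85), (5,94), (1,219),
   (3,213), (1,99), (1,35), (1,48), (2,192), (2,58), (2,250), (1,35), (2,60), (1,25), (3,14),
   (1,116), (4,26), (1,282), (2,114), (1,227), (2,321), (3,136), (1,43), (1,116), (1,73),
   (9,127), (2,227), (1,112), (1,31), (1,108), (2,57), (1,293), (3,126), (3,215), (1,116),
   (1,43), (1,42), (1,61), (1,183), (1,107), (1,159), (1,1), (2,39), (1,59), (3,79), (2,4),
   (3,161), (1,304), (1,168), (1,7), (1,23), (3,274), (5,289), (1,73), (2,110), (1,79), (1,280),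
   (1,112), (1,221), (1,214), (1,277), (2,167), (2,55), (2,211), (1,113), (4,148), (6,61),
   (1,23), (1,188), (1,50), (1,61), (1,106), (1,60), (2,112), (1,176), (3,368), (1,106), (5,223),
   (2,287), (1,188), (5,83), (1,195), (3,91), (3,107), (2,130), (1,256), (1,195), (2,159),
   (1,140), (1,5), (4,113), (4,50), (1,57), (1,46), (3,78), (4,86), (3,28), (1,91), (2,59),
   (1,25), (2,163), (3,15), (5,116), (2,252), (1,360), (2,58), (4,109), (2,255), (6,155),
   (1,110), (1,236), (2,307), (3,107), (2,126), (7,23), (1,211), (1,169), (3,166), (1,14),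
   (2,180), (4,116), (1,334), (2,121), (1,154), (1,296), (1,116), (1,117), (3,182), (1,159),
   (2,153), (1,136), (2,60), (1,123), (2,256), (2,58), (2,60), (1,15), (2,219), (1,63), (1,176),
   (6,124), (3,204), (1,193), (2,130), (1,25), (1,152), (3,116), (1,152), (1,25), (3,204),
   (1,193), (7,25), (2,112), (1,176), (1,63), (2,110), (1,15), (2,58), (2,256), (2,174), (1,123),
   (9,199), (1,136), (3,182), (1,159), (2,59), (1,117), (1,116), (1,296), (1,154), (2,108),
   (1,334), (2,180), (3,166), (1,14), (2,167), (1,169), (1,211), (2,126), (4,275), (2,307),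
   (12,79), (1,236), (1,110), (2,255), (4,63), (2,58), (2,114), (1,360), (3,15), (6,222),
   (2,163), (3,28), (1,25), (3,28), (1,91), (3,78), (5,1), (2,222), (1,46), (1,57), (5,148),
   (2,123), (1,5), (1,140), (2,236), (1,195), (1,256), (3,91), (7,41), (4,147), (1,195), (2,38),
   (1,188), (4,34), (3,368), (1,106), (3,114), (1,176), (3,164), (1,60), (1,106), (1,61), (1,50),
   (1,188), (1,23), (9,53), (3,108), (1,113), (2,55), (2,167), (2,277), (1,277), (1,214),
   (1,221), (1,112), (1,280), (1,79), (2,214), (1,73), (3,108), (3,213), (1,23), (1,7), (1,168),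
   (1,304), (2,4), (3,66), (3,4), (1,59), (4,322), (1,1), (1,159), (1,107), (1,183), (1,61),
   (1,42), (1,43), (1,116), (5,229), (4,91), (1,293), (4,61), (1,108), (1,31), (1,112), (5,153),
   (2,349), (1,73), (1,116), (1,43), (2,321), (3,215), (1,227), (2,222), (1,282), (2,61),
   (1,116), (2,120), (1,25), (2,14), (1,35), (2,58), (2,192), (3,24), (1,48), (1,35), (1,99),
   (2,106), (1,219), (3,42), (3,136), (1,143), (2,7), (3,48), (1,107), (1,86), (1,122), (1,1),
   (2,34), (1,99), (1,296), (6,131), (1,294), (1,126), (1,5), (2,14), (5,121), (1,211), (8,192),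
   (1,140), (1,340), (1,55), (5,42), (5,48), (2,66), (1,26), (1,236), (3,122), (1,1), (4,60),
   (2,195), (1,122), (2,50), (1,80), (1,59), (2,272), (3,53), (2,5), (6,280), (2,304), (5,86),
   (4,174)]

set_option maxRecDepth 100000 in
theorem all_373_54 : All 373 54 :=
  tab_all (tab_373_54) (by decide) (by decide +kernel) (by decide +kernel)

def tab_373_359 : List (ℕ × ℕ) :=
  [(1,1), (2,6), (4,162), (1,162), (1,145), (1,38), (2,80), (1,85), (2,53), (2,138), (1,82),
   (2,198), (1,254), (1,152), (1,258), (2,116), (1,55), (1,9), (1,5), (1,81), (4,15), (1,160),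
   (3,238), (1,20), (1,133), (2,193), (1,219), (1,76), (1,155), (1,160), (1,146), (1,153),
   (1,145), (1,12), (1,202), (1,155), (5,161), (1,76), (4,100), (1,34), (1,200), (5,55), (2,207),
   (6,145), (4,133), (2,64), (3,171), (1,191), (1,65), (3,14), (4,94), (2,25), (1,166), (3,234),
   (1,118), (1,125), (1,54), (1,207), (4,311), (2,202), (1,316), (2,87), (7,105), (1,28),
   (1,159), (1,39), (1,80), (1,186), (4,159), (1,251), (1,337), (1,1), (1,215), (1,147), (2,219),
   (1,46), (3,54), (2,74), (1,65), (2,169), (6,89), (4,6), (3,100), (4,85), (4,215), (2,192),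
   (1,55), (3,369), (2,39), (1,254), (2,5), (1,151), (7,6), (1,221), (1,170), (3,203), (1,96),
   (1,82), (2,34), (2,1), (1,163), (6,205), (1,166), (3,39), (2,62), (2,89), (1,125), (2,148),
   (1,76), (1,118), (1,74), (3,177), (1,80), (3,6), (3,5), (1,81), (5,55), (2,166), (1,14),
   (2,226), (3,243), (3,175), (2,210), (4,234), (2,339), (1,162), (1,117), (1,207), (1,188),
   (1,12), (1,265), (3,200), (1,74), (1,145), (2,186), (1,53), (4,125), (1,26), (1,22), (2,124),
   (2,15), (2,169), (1,92), (1,155), (2,138), (1,18), (1,1), (2,62), (1,12), (1,70), (1,64),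
   (1,5), (1,291), (4,117), (4,188), (1,34), (1,6), (1,97), (1,232), (3,2), (2,169), (1,222),
   (1,40), (3,44), (1,138), (1,242), (1,6), (6,165), (2,226), (5,46), (2,82), (1,165), (2,105),
   (2,194), (1,53), (1,138), (1,89), (1,20), (1,87), (3,44), (1,87), (1,14), (1,1), (4,43),
   (1,231), (5,213), (1,130), (7,54), (1,231), (2,97), (1,1), (1,14), (1,87), (3,125), (1,87),
   (1,20), (1,89), (1,138), (1,53), (2,105), (3,1), (1,165), (3,360), (2,226), (5,31), (3,43),
   (1,6), (1,242), (1,138), (2,166), (1,40), (1,222), (5,221), (4,28), (1,232), (1,97), (1,6),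
   (1,34), (3,28), (2,28), (1,291), (1,5), (1,64), (1,70), (1,12), (2,149), (1,1), (1,18),
   (2,18), (1,155), (1,92), (2,15), (2,124), (2,94), (1,22), (1,26), (2,156), (1,53), (3,25),
   (1,145), (1,74), (2,116), (1,265), (1,12), (1,188), (1,207), (1,117), (1,162), (4,92),
   (2,210), (3,243), (4,124), (2,226), (2,80), (1,14), (5,289), (3,5), (1,81), (3,186), (3,177),
   (1,80), (3,89), (1,74), (1,118), (1,76), (2,65), (1,125), (2,62), (8,2), (2,159), (1,166),
   (3,145), (1,163), (2,34), (3,133), (1,82), (1,96), (2,225), (1,170), (1,221), (4,25), (1,151),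
   (2,54), (1,254), (5,153), (2,194), (1,55), (5,6), (3,100), (5,67), (5,74), (5,25), (2,169),
   (2,253), (1,65), (3,2), (2,99), (1,46), (2,55), (1,147), (1,215), (1,1), (1,337), (1,251),
   (3,148), (1,186), (1,80), (1,39), (1,159), (1,28), (2,87), (4,311), (1,316), (4,28), (3,175),
   (1,207), (1,54), (1,125), (1,118), (4,94), (1,166), (3,14), (3,6), (2,99), (1,65), (1,191),
   (2,64), (4,191), (6,5), (2,207), (6,153), (2,53), (1,200), (1,34), (5,149), (1,76), (5,9),
   (1,155), (1,202), (1,12), (1,145), (1,153), (1,146), (1,160), (1,155), (1,76), (1,219),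
   (2,193), (1,133), (1,20), (2,221), (1,160), (3,244), (1,81), (1,5), (1,9), (1,55), (4,148),
   (1,258), (1,152), (1,254), (2,22), (1,82), (2,53), (2,28), (1,85), (4,194), (1,38), (1,145),
   (1,162), (2,6), (4,52), (2,156)]

set_option maxRecDepth 100000 in
theorem all_373_359 : All 373 359 :=
  tab_all (tab_373_359) (by decide) (by decide +kernel) (by decide +kernel)

theorem st_A373 : ST_A373 :=
  ⟨all_373_182, all_373_109, all_373_54, all_373_359⟩

end Pool.Agent.Helper2.EG
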