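import Pool.Agent.Helper2.EG.Tab

/-!
Residue tables (A409).
-/

set_option autoImplicit false

namespace Pool.Agent.Helper2.EG

def tab_409_13 : List (ℕ × ℕ) :=
  [(1,1), (5,142), (3,262), (1,117), (1,213), (1,70), (1,139), (2,106), (1,184), (1,379), (1,8),
   (2,40), (2,12), (1,1), (1,298), (1,9), (1,40), (3,81), (8,378), (4,97), (3,105), (3,1),
   (1,40), (1,253), (1,80), (2,40), (1,221), (1,173), (2,50), (2,80), (4,1), (2,284), (3,68),
   (1,221), (2,114), (1,119), (1,97), (1,133), (2,83), (1,184), (1,22), (3,106), (2,221),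
   (1,310), (4,9), (1,161), (2,145), (1,117), (2,101), (1,232), (4,177), (3,31), (1,28), (3,212),
   (1,150), (2,90), (1,93), (1,23), (2,23), (4,357), (1,229), (1,114), (1,97), (1,37), (2,8),
   (1,197), (1,181), (1,291), (2,53), (2,143), (1,47), (2,117), (1,280), (2,34), (3,198), (1,22),
   (1,181), (1,117), (1,159), (1,194), (2,22), (1,177), (1,167), (1,143), (1,27), (2,23), (3,33),
   (3,116), (1,291), (5,77), (1,39), (2,184), (4,207), (1,105), (2,9), (2,34), (2,71), (2,346),
   (1,197), (2,239), (1,367), (1,169), (3,6), (2,68), (1,92), (1,97), (2,173), (1,136), (1,172),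
   (1,162), (1,139), (7,27), (1,249), (2,54), (6,120), (1,310), (1,140), (1,70), (2,126), (1,12),
   (2,338), (2,27), (3,22), (2,120), (3,8), (1,110), (1,354), (1,181), (1,150), (1,34), (1,247),
   (2,310), (2,145), (3,11), (1,83), (1,59), (2,278), (2,12), (2,157), (2,226), (1,55), (6,70),
   (1,151), (2,204), (1,23), (2,90), (1,114), (1,28), (5,179), (1,198), (1,378), (1,180), (1,23),
   (1,313), (2,165), (1,187), (1,104), (1,130), (1,101), (2,76), (1,22), (2,103), (2,136),
   (2,12), (3,103), (1,59), (3,252), (2,178), (1,39), (4,110), (1,92), (3,11), (2,115), (2,178),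
   (2,234), (1,277), (2,70), (1,130), (2,76), (2,47), (1,30), (1,27), (5,262), (1,177), (2,114),
   (2,90), (2,93), (1,174), (2,254), (2,263), (1,173), (3,172), (1,55), (1,159), (1,126),
   (1,123), (2,101), (1,105), (1,8), (1,115), (1,162), (4,187), (1,96), (1,123), (1,181),
   (1,123), (1,96), (2,50), (1,162), (1,115), (1,8), (1,105), (3,6), (1,123), (1,126), (1,159),
   (1,55), (2,22), (1,173), (2,254), (3,81), (1,174), (2,90), (2,114), (2,298), (1,177), (4,40),
   (1,27), (1,30), (2,76), (3,244), (1,130), (3,249), (1,277), (2,178), (2,115), (3,269),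
   (6,102), (1,92), (2,197), (1,39), (4,93), (2,57), (1,59), (2,12), (2,136), (2,103), (2,56),
   (1,22), (4,118), (1,101), (1,130), (1,104), (1,187), (3,65), (1,313), (1,23), (1,180),
   (1,378), (1,198), (2,40), (1,28), (1,114), (6,150), (1,23), (2,31), (1,151), (2,80), (1,55),
   (2,157), (2,12), (2,278), (3,157), (1,59), (1,83), (2,145), (2,310), (4,213), (1,247), (1,34),
   (1,150), (1,181), (1,354), (1,110), (2,120), (4,146), (2,27), (2,338), (3,92), (1,12),
   (2,117), (1,70), (1,140), (1,310), (2,54), (4,76), (1,249), (2,70), (1,139), (1,162), (1,172),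
   (1,136), (4,83), (1,97), (1,92), (3,11), (2,23), (1,169), (1,367), (3,34), (1,197), (2,71),
   (2,34), (2,9), (4,115), (1,105), (2,184), (2,354), (1,39), (3,116), (1,291), (5,213), (2,23),
   (3,16), (1,27), (1,143), (1,167), (1,177), (4,59), (1,194), (1,159), (1,117), (1,181), (1,22),
   (2,34), (5,186), (1,280), (2,102), (1,47), (2,53), (2,30), (1,291), (1,181), (1,197), (3,117),
   (1,37), (1,97), (1,114), (1,229), (2,23), (2,139), (1,23), (1,93), (2,108), (1,150), (2,34),
   (1,28), (6,90), (3,247), (1,232), (2,284), (1,117), (5,119), (1,161), (3,162), (1,310),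
   (3,28), (3,192), (1,22), (1,184), (2,11), (1,133), (1,97), (1,119), (2,50), (1,221), (2,284),
   (3,161), (2,80), (2,50), (2,9), (1,173), (1,221), (3,215), (1,80), (1,253), (1,40), (5,31),
   (9,196), (3,81), (3,71), (3,22), (1,40), (1,9), (1,298), (1,1), (2,40), (2,38), (1,8),
   (1,379), (1,184), (2,57), (1,139), (1,70), (1,213), (1,117), (8,280), (4,102), (5,133)]

set_option maxRecDepth 100000 in
theorem all_409_13 : All 409 13 :=
  tab_all (tab_409_13) (by decide) (by decide +kernel) (by decide +kernel)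

def tab_409_182 : List (ℕ × ℕ) :=
  [(1,1), (1,18), (1,152), (2,133), (3,268), (2,10), (3,353), (3,48), (1,55), (2,60), (1,25),
   (5,45), (1,153), (1,84), (1,232), (2,40), (1,26), (1,165), (1,189), (5,299), (2,156), (2,139),
   (3,67), (1,84), (2,34), (3,26), (3,77), (1,165), (2,152), (1,18), (4,14), (1,170), (2,35),
   (2,267), (4,131), (3,44), (1,197), (1,181), (2,110), (1,159), (1,65), (1,344), (4,142),
   (2,242), (3,209), (1,158), (4,56), (3,70), (1,40), (1,290), (1,68), (1,183), (1,45), (1,212),
   (1,197), (1,48), (1,382), (3,187), (4,214), (6,390), (1,75), (2,229), (1,118), (1,73), (2,18),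
   (1,151), (2,140), (1,279), (2,54), (2,250), (1,40), (1,42), (5,90), (11,75), (1,101), (1,5),
   (2,197), (3,90), (1,60), (5,90), (3,2), (5,46), (2,234), (3,53), (3,30), (3,33), (2,33),
   (1,181), (3,27), (1,77), (2,70), (2,49), (1,114), (3,358), (1,241), (1,98), (1,309), (2,139),
   (2,151), (2,125), (3,133), (3,40), (4,220), (3,1), (2,32), (1,53), (3,45), (1,216), (2,194),
   (2,363), (1,99), (1,122), (1,35), (2,42), (4,46), (2,141), (1,80), (2,118), (1,252), (2,133),
   (4,52), (1,55), (1,33), (1,153), (3,125), (1,216), (1,194), (2,219), (1,103), (1,229), (1,90),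
   (2,103), (1,336), (2,193), (1,33), (2,38), (1,42), (2,290), (2,98), (1,234), (2,370), (5,84),
   (1,334), (3,193), (1,5), (2,323), (1,32), (2,175), (2,40), (3,95), (3,130), (1,171), (2,189),
   (3,41), (3,14), (1,181), (4,140), (1,370), (3,153), (4,60), (6,48), (3,30), (2,23), (2,141),
   (1,118), (2,65), (3,58), (1,159), (1,2), (1,52), (1,68), (1,256), (3,142), (1,68), (1,173),
   (1,122), (2,228), (5,131), (3,185), (1,279), (1,38), (2,23), (1,1), (2,153), (1,77), (2,70),
   (1,119), (2,90), (1,27), (2,14), (1,75), (1,135), (1,33), (2,159), (2,32), (1,32), (3,50),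
   (2,153), (3,56), (4,68), (1,90), (1,2), (1,16), (1,328), (1,38), (1,328), (1,16), (1,2),
   (1,90), (5,266), (2,153), (3,118), (2,131), (1,32), (2,159), (9,159), (1,33), (1,135), (1,75),
   (3,51), (1,27), (3,16), (1,119), (2,242), (1,77), (4,47), (1,1), (4,103), (1,38), (1,279),
   (4,90), (2,228), (4,40), (1,122), (1,173), (1,68), (2,55), (1,256), (1,68), (1,52), (1,2),
   (1,159), (2,65), (3,165), (1,118), (2,23), (4,60), (4,148), (3,153), (3,53), (2,153), (1,370),
   (3,14), (1,181), (5,103), (2,189), (2,275), (1,171), (3,44), (2,40), (2,175), (6,232), (1,32),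
   (2,44), (1,5), (2,257), (1,334), (2,370), (7,305), (1,234), (2,290), (7,328), (1,42), (2,68),
   (1,33), (2,26), (1,336), (5,197), (1,90), (1,229), (1,103), (3,23), (1,194), (1,216), (2,62),
   (1,153), (1,33), (1,55), (2,133), (2,256), (1,252), (3,321), (1,80), (7,53), (2,42), (2,40),
   (1,35), (1,122), (1,99), (2,194), (2,369), (1,216), (2,65), (1,53), (4,101), (3,40), (3,133),
   (3,62), (2,125), (2,151), (2,139), (3,45), (1,309), (1,98), (1,241), (2,66), (1,114), (2,70),
   (3,27), (1,77), (3,54), (1,181), (3,30), (3,53), (6,178), (2,234), (3,2), (7,114), (3,122),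
   (2,62), (1,60), (2,197), (5,90), (1,5), (1,101), (4,344), (4,45), (1,42), (1,40), (2,54),
   (5,53), (1,279), (2,204), (1,151), (3,194), (1,73), (1,118), (2,323), (1,75), (3,187),
   (3,181), (2,212), (1,382), (1,48), (1,197), (1,212), (1,45), (1,183), (1,68), (1,290), (1,40),
   (4,321), (3,209), (1,158), (2,242), (5,52), (5,60), (1,344), (1,65), (1,159), (2,256),
   (1,181), (1,197), (5,35), (2,267), (2,35), (5,98), (1,170), (2,212), (1,18), (2,80), (1,165),
   (6,73), (2,34), (3,67), (1,84), (2,139), (2,156), (3,16), (2,55), (1,189), (1,165), (1,26),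
   (3,59), (1,232), (1,84), (1,153), (3,141), (1,25), (2,96), (1,55), (10,42), (2,10), (7,220),
   (2,133), (2,175), (1,152), (1,18), (3,100)]

set_option maxRecDepth 100000 in
theorem all_409_182 : All 409 182 :=
  tab_all (tab_409_182) (by decide) (by decide +kernel) (by decide +kernel)

def tab_409_177 : List (ℕ × ℕ) :=
  [(1,1), (1,29), (1,16), (5,343), (3,135), (2,20), (3,45), (3,227), (1,123), (4,56), (3,29),
   (1,40), (1,245), (2,226), (3,42), (2,87), (3,132), (2,257), (1,63), (1,76), (2,53), (4,306),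
   (1,75), (1,89), (1,295), (3,79), (1,30), (1,70), (5,123), (2,41), (1,53), (1,36), (1,140),
   (1,90), (2,137), (3,16), (2,197), (2,185), (2,79), (1,202), (1,63), (1,30), (5,137), (1,4),
   (5,316), (1,113), (2,197), (3,151), (6,203), (1,208), (1,264), (2,185), (2,20), (1,290),
   (1,31), (5,91), (1,13), (1,145), (1,81), (2,322), (1,286), (2,28), (2,41), (4,153), (3,66),
   (2,88), (1,235), (2,112), (6,90), (2,220), (1,169), (1,116), (1,109), (2,11), (1,227),
   (2,197), (2,93), (4,42), (3,32), (3,242), (2,338), (4,76), (2,40), (1,186), (1,171), (4,88),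
   (1,178), (1,113), (3,49), (4,4), (2,10), (1,54), (3,29), (5,74), (2,220), (3,359), (1,188),
   (4,92), (1,207), (2,251), (1,87), (4,42), (1,63), (2,275), (2,90), (1,123), (2,160), (3,150),
   (1,185), (1,352), (3,13), (2,1), (1,30), (1,147), (1,285), (1,231), (2,221), (2,142), (3,205),
   (2,169), (1,88), (1,87), (2,108), (1,77), (1,91), (2,113), (1,20), (1,160), (6,167), (1,243),
   (1,74), (1,109), (1,29), (4,185), (1,27), (2,3), (2,107), (1,41), (1,236), (1,40), (1,343),
   (1,135), (3,225), (2,36), (1,3), (2,293), (3,75), (4,334), (2,65), (1,50), (4,176), (2,327),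
   (1,10), (3,338), (2,207), (1,6), (1,109), (1,375), (3,20), (1,36), (1,30), (1,271), (1,142),
   (2,91), (2,65), (2,283), (2,83), (1,53), (1,145), (2,257), (1,140), (2,1), (1,152), (2,147),
   (1,221), (3,253), (1,176), (1,1), (2,190), (2,36), (1,357), (1,171), (1,89), (1,130), (1,145),
   (2,118), (4,1), (2,123), (1,152), (1,42), (2,16), (1,31), (1,3), (1,242), (6,112), (4,159),
   (2,188), (1,43), (4,229), (4,188), (6,6), (1,178), (3,108), (2,108), (1,285), (5,307),
   (4,188), (1,178), (6,271), (3,81), (2,107), (1,43), (4,222), (3,108), (2,132), (1,242), (1,3),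
   (1,31), (2,307), (1,42), (1,152), (3,26), (2,118), (2,306), (1,145), (1,130), (1,89), (1,171),
   (1,357), (2,190), (2,351), (1,1), (1,176), (3,38), (1,221), (2,197), (1,152), (4,229),
   (1,140), (4,185), (1,145), (1,53), (2,283), (2,65), (2,91), (3,1), (1,142), (1,271), (1,30),
   (1,36), (3,118), (1,375), (1,109), (1,6), (8,13), (3,150), (1,10), (3,146), (3,26), (1,50),
   (3,75), (3,31), (2,293), (4,295), (1,3), (3,176), (3,43), (1,135), (1,343), (1,40), (1,236),
   (1,41), (2,3), (4,41), (1,27), (3,257), (1,29), (1,109), (1,74), (1,243), (2,4), (1,160),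
   (1,20), (3,253), (1,91), (1,77), (4,299), (1,87), (1,88), (5,124), (2,142), (2,221), (3,29),
   (1,231), (1,285), (1,147), (1,30), (3,148), (2,74), (1,352), (1,185), (2,160), (2,190),
   (1,123), (2,275), (2,92), (1,63), (2,185), (1,87), (7,227), (1,207), (3,359), (1,188),
   (2,220), (3,29), (8,303), (2,325), (1,54), (3,49), (3,112), (3,220), (1,113), (1,178),
   (2,238), (1,171), (1,186), (4,302), (2,338), (3,32), (5,391), (3,160), (2,93), (2,197),
   (3,171), (1,227), (3,271), (1,109), (1,116), (1,169), (3,147), (2,112), (3,40), (1,235),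
   (6,165), (3,4), (2,41), (2,28), (4,132), (1,286), (2,26), (1,81), (1,145), (1,13), (4,26),
   (1,31), (1,290), (2,185), (3,130), (1,264), (1,208), (3,28), (2,197), (2,79), (1,113), (2,10),
   (1,4), (4,1), (1,30), (1,63), (1,202), (2,185), (2,197), (3,238), (2,137), (3,394), (1,90),
   (1,140), (1,36), (1,53), (5,334), (2,90), (1,70), (1,30), (2,28), (1,295), (1,89), (1,75),
   (2,53), (2,75), (1,76), (1,63), (4,135), (2,87), (6,153), (2,226), (3,152), (1,245), (1,40),
   (3,6), (3,227), (1,123), (5,343), (2,20), (7,96), (7,32), (2,91), (1,16), (1,29), (5,199)]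

set_option maxRecDepth 100000 in
theorem all_409_177 : All 409 177 :=
  tab_all (tab_409_177) (by decide) (by decide +kernel) (by decide +kernel)

theorem st_A409 : ST_A409 :=
  ⟨all_409_13, all_409_182, all_409_177⟩

end Pool.Agent.Helper2.EG
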