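import Pool.Agent.Helper2.EG.Tab

/-!
Residue tables (A41).
-/

set_option autoImplicit false

namespace Pool.Agent.Helper2.EG

def tab_41_1 : List (ℕ × ℕ) :=
  [(1,1), (1,1), (4,2), (3,19), (2,20), (3,5), (1,8), (1,11), (1,2), (1,2), (1,9), (1,31),
   (3,11), (4,18), (1,9), (5,2), (1,11), (2,12), (3,11), (2,9), (2,9), (3,14), (2,12), (4,19),
   (1,11), (2,8), (1,9), (4,30), (4,15), (1,31), (1,9), (1,2), (1,2), (1,11), (1,8), (2,20),
   (7,12), (3,1), (2,1), (1,1), (3,28)]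

set_option maxRecDepth 100000 in
theorem all_41_1 : All 41 1 :=
  tab_all (tab_41_1) (by decide) (by decide +kernel) (by decide +kernel)

def tab_41_2 : List (ℕ × ℕ) :=
  [(1,1), (1,7), (1,1), (3,4), (2,5), (3,26), (3,9), (2,9), (2,1), (1,9), (3,6), (1,30), (2,7),
   (2,28), (4,14), (4,7), (2,1), (5,4), (1,5), (2,7), (1,6), (8,30), (1,5), (2,1), (6,9), (3,13),
   (2,28), (2,7), (3,6), (1,30), (2,10), (1,9), (2,9), (3,26), (3,6), (2,5), (6,23), (2,9),
   (1,1), (1,7), (2,25)]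

set_option maxRecDepth 100000 in
theorem all_41_2 : All 41 2 :=
  tab_all (tab_41_2) (by decide) (by decide +kernel) (by decide +kernel)

def tab_41_6 : List (ℕ × ℕ) :=
  [(1,1), (5,5), (1,3), (2,1), (3,26), (3,3), (1,1), (5,32), (1,14), (1,17), (6,1), (1,26),
   (1,16), (4,22), (3,3), (1,10), (3,14), (1,5), (2,3), (1,7), (1,7), (1,7), (2,14), (1,5),
   (2,3), (1,10), (3,32), (2,12), (1,16), (1,26), (6,17), (1,17), (1,14), (3,3), (1,1), (4,36),
   (2,1), (8,12), (1,3), (3,3), (3,3)]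

set_option maxRecDepth 100000 in
theorem all_41_6 : All 41 6 :=
  tab_all (tab_41_6) (by decide) (by decide +kernel) (by decide +kernel)

def tab_41_9 : List (ℕ × ℕ) :=
  [(1,1), (2,23), (1,15), (1,15), (1,15), (1,24), (2,8), (4,23), (2,24), (3,1), (1,24), (1,23),
   (1,35), (1,13), (2,10), (2,17), (4,32), (1,1), (1,15), (2,34), (1,13), (2,17), (1,15), (1,1),
   (2,17), (2,10), (4,28), (1,13), (1,35), (1,23), (1,24), (2,24), (4,12), (2,8), (3,1), (1,24),
   (1,15), (1,15), (1,15), (4,24), (4,12)]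

set_option maxRecDepth 100000 in
theorem all_41_9 : All 41 9 :=
  tab_all (tab_41_9) (by decide) (by decide +kernel) (by decide +kernel)

theorem st_A41 : ST_A41 :=
  ⟨all_41_1, all_41_2, all_41_6, all_41_9⟩

end Pool.Agent.Helper2.EG
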