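import Pool.Agent.Helper2.EG.Tab

/-!
Residue tables (A53).
-/

set_option autoImplicit false

namespace Pool.Agent.Helper2.EG

def tab_53_29 : List (ℕ × ℕ) :=
  [(1,1), (1,26), (3,27), (3,30), (3,28), (1,47), (1,24), (2,22), (7,1), (3,36), (1,8), (3,8),
   (2,24), (1,1), (2,9), (1,36), (2,12), (1,8), (1,36), (1,33), (2,1), (1,22), (1,1), (1,26),
   (6,26), (2,24), (1,30), (3,24), (2,31), (1,26), (1,1), (1,22), (6,24), (1,33), (1,36), (1,8),
   (2,24), (1,36), (2,1), (1,1), (4,22), (2,8), (1,8), (3,44), (2,22), (2,37), (1,24), (1,47),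
   (3,27), (7,22), (2,30), (1,26), (2,31)]

set_option maxRecDepth 100000 in
theorem all_53_29 : All 53 29 :=
  tab_all (tab_53_29) (by decide) (by decide +kernel) (by decide +kernel)

def tab_53_22 : List (ℕ × ℕ) :=
  [(1,1), (2,24), (1,29), (1,8), (4,33), (1,1), (4,11), (1,17), (2,34), (3,22), (4,36), (2,17),
   (2,5), (1,8), (2,15), (1,30), (3,5), (3,6), (1,33), (3,34), (1,23), (5,25), (1,11), (1,1),
   (2,5), (1,3), (1,1), (1,3), (2,30), (1,1), (1,11), (2,21), (1,23), (3,6), (1,33), (4,29),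
   (5,24), (1,30), (3,22), (1,8), (2,17), (3,22), (3,30), (2,34), (4,11), (1,17), (5,22), (1,1),
   (3,22), (1,8), (1,29), (3,11), (2,17)]

set_option maxRecDepth 100000 in
theorem all_53_22 : All 53 22 :=
  tab_all (tab_53_22) (by decide) (by decide +kernel) (by decide +kernel)

theorem st_A53 : ST_A53 :=
  ⟨all_53_29, all_53_22⟩

end Pool.Agent.Helper2.EG
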