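import Pool.Agent.Helper2.EG.Tab

/-!
Residue tables (A73).
-/

set_option autoImplicit false

namespace Pool.Agent.Helper2.EG

def tab_73_45 : List (ℕ × ℕ) :=
  [(1,1), (2,30), (6,36), (3,48), (4,20), (1,15), (2,45), (2,37), (3,32), (1,26), (4,22), (2,5),
   (1,59), (1,48), (1,2), (2,32), (5,25), (3,49), (1,22), (2,26), (5,32), (2,15), (2,44), (1,25),
   (2,30), (2,29), (1,1), (2,43), (1,30), (2,29), (4,10), (2,36), (1,30), (1,1), (2,25), (1,22),
   (3,67), (1,22), (6,4), (1,1), (1,30), (4,44), (2,29), (2,1), (1,30), (2,5), (1,1), (2,30),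
   (3,58), (1,25), (2,15), (6,1), (2,26), (3,49), (1,22), (3,66), (2,32), (2,32), (1,2), (1,48),
   (1,59), (4,15), (2,29), (1,26), (2,37), (2,45), (2,1), (1,15), (7,26), (9,1), (2,30), (3,57),
   (3,57)]

set_option maxRecDepth 100000 in
theorem all_73_45 : All 73 45 :=
  tab_all (tab_73_45) (by decide) (by decide +kernel) (by decide +kernel)

def tab_73_26 : List (ℕ × ℕ) :=
  [(1,1), (1,20), (1,10), (1,19), (3,7), (5,7), (1,19), (1,11), (2,10), (2,11), (1,47), (4,23),
   (3,20), (4,11), (3,20), (2,11), (1,61), (4,26), (4,23), (1,27), (1,29), (2,18), (1,9), (1,40),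
   (1,6), (4,11), (1,62), (1,1), (3,47), (1,10), (4,12), (4,12), (2,23), (1,20), (2,10), (1,19),
   (2,10), (1,19), (4,12), (1,20), (6,54), (3,70), (3,47), (1,10), (3,26), (1,1), (1,62), (2,27),
   (1,6), (1,40), (1,9), (4,23), (1,29), (1,27), (4,51), (3,18), (1,61), (6,30), (3,20), (4,11),
   (3,25), (2,53), (1,47), (2,10), (2,1), (1,11), (1,19), (7,26), (3,27), (1,19), (1,10), (1,20),
   (6,6)]

set_option maxRecDepth 100000 in
theorem all_73_26 : All 73 26 :=
  tab_all (tab_73_26) (by decide) (by decide +kernel) (by decide +kernel)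

def tab_73_27 : List (ℕ × ℕ) :=
  [(1,1), (2,61), (1,26), (2,6), (1,27), (1,24), (1,22), (2,16), (1,13), (2,19), (1,44), (3,9),
   (1,13), (4,7), (2,21), (2,24), (1,7), (2,48), (1,13), (8,9), (3,2), (2,44), (1,60), (1,26),
   (2,49), (3,17), (1,9), (1,27), (1,17), (1,26), (6,24), (2,52), (3,52), (1,19), (3,48), (1,9),
   (1,48), (1,9), (3,52), (1,19), (2,52), (5,9), (2,27), (1,26), (1,17), (1,27), (1,9), (2,49),
   (2,23), (1,26), (1,60), (5,22), (3,17), (4,28), (1,13), (4,6), (1,7), (2,21), (3,23), (3,9),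
   (1,13), (2,1), (1,44), (4,1), (1,13), (4,26), (1,22), (1,24), (1,27), (2,13), (1,26), (4,49),
   (2,16)]

set_option maxRecDepth 100000 in
theorem all_73_27 : All 73 27 :=
  tab_all (tab_73_27) (by decide) (by decide +kernel) (by decide +kernel)

theorem st_A73 : ST_A73 :=
  ⟨all_73_45, all_73_26, all_73_27⟩

end Pool.Agent.Helper2.EG
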