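import Pool.Agent.Helper2.EG.Tab

/-!
Residue tables (A97).
-/

set_option autoImplicit false

namespace Pool.Agent.Helper2.EG

def tab_97_74 : List (ℕ × ℕ) :=
  [(1,1), (1,30), (2,68), (1,75), (2,16), (3,12), (4,63), (1,53), (1,58), (1,6), (1,51), (1,35),
   (1,13), (1,43), (1,48), (2,38), (1,32), (1,12), (1,71), (2,65), (1,39), (1,1), (2,17), (1,41),
   (3,20), (2,37), (2,24), (2,21), (1,3), (1,92), (2,20), (1,1), (1,29), (11,38), (1,39), (1,86),
   (3,19), (2,17), (1,7), (1,84), (2,43), (2,29), (1,20), (1,12), (5,20), (1,48), (3,39), (1,13),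
   (2,12), (1,13), (4,68), (1,48), (2,13), (1,12), (1,20), (2,43), (4,7), (1,84), (1,7), (3,24),
   (2,73), (1,86), (1,39), (2,65), (1,29), (1,1), (3,13), (1,92), (1,3), (2,24), (2,37), (6,7),
   (2,1), (1,41), (2,38), (1,1), (1,39), (2,21), (1,71), (1,12), (1,32), (4,37), (1,48), (1,43),
   (1,13), (1,35), (1,51), (1,6), (1,58), (1,53), (3,43), (2,16), (4,39), (1,75), (2,63), (1,30),
   (5,51)]

set_option maxRecDepth 100000 in
theorem all_97_74 : All 97 74 :=
  tab_all (tab_97_74) (by decide) (by decide +kernel) (by decide +kernel)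

def tab_97_21 : List (ℕ × ℕ) :=
  [(1,1), (4,36), (3,8), (2,20), (2,5), (2,38), (2,54), (2,73), (1,2), (1,72), (4,25), (4,22),
   (1,72), (1,28), (2,28), (4,2), (1,45), (7,34), (1,60), (4,22), (1,56), (1,55), (1,1), (1,49),
   (2,38), (4,29), (1,2), (1,34), (1,20), (1,52), (1,74), (1,54), (8,5), (2,52), (5,29), (4,22),
   (1,45), (1,35), (3,54), (1,28), (3,60), (2,38), (3,32), (2,49), (1,74), (2,1), (3,35), (5,34),
   (3,35), (3,8), (2,1), (2,54), (1,74), (5,89), (2,38), (4,66), (2,22), (1,28), (3,1), (1,35),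
   (1,45), (5,22), (2,52), (4,5), (2,49), (1,54), (1,74), (1,52), (1,20), (1,34), (1,2), (2,38),
   (3,34), (1,49), (1,1), (1,55), (1,56), (2,56), (1,60), (2,29), (1,45), (2,28), (3,43), (1,28),
   (1,72), (3,35), (3,55), (1,72), (1,2), (2,54), (2,38), (2,5), (2,20), (5,38), (6,34), (3,34),
   (3,34)]

set_option maxRecDepth 100000 in
theorem all_97_21 : All 97 21 :=
  tab_all (tab_97_21) (by decide) (by decide +kernel) (by decide +kernel)

def tab_97_22 : List (ℕ × ℕ) :=
  [(1,1), (2,76), (1,50), (1,5), (3,4), (1,21), (2,10), (1,29), (1,4), (3,7), (1,7), (1,65),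
   (2,19), (5,38), (3,66), (1,21), (5,19), (2,5), (1,43), (1,23), (1,52), (1,63), (1,4), (1,36),
   (1,11), (1,6), (1,6), (1,7), (3,38), (1,30), (1,63), (1,53), (2,23), (1,23), (2,5), (1,43),
   (1,54), (1,38), (1,27), (3,18), (3,57), (2,36), (1,45), (5,29), (1,63), (2,48), (3,42),
   (1,29), (1,36), (1,29), (2,48), (4,32), (1,63), (2,7), (1,45), (3,18), (4,58), (4,5), (1,27),
   (1,38), (1,54), (1,43), (2,29), (1,23), (2,21), (1,53), (1,63), (1,30), (2,18), (1,7), (1,6),
   (1,6), (1,11), (1,36), (1,4), (1,63), (1,52), (1,23), (1,43), (4,1), (3,66), (1,21), (4,48),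
   (2,19), (4,52), (1,65), (1,7), (2,70), (1,4), (1,29), (3,4), (1,21), (2,22), (1,5), (1,50),
   (4,50), (5,10)]

set_option maxRecDepth 100000 in
theorem all_97_22 : All 97 22 :=
  tab_all (tab_97_22) (by decide) (by decide +kernel) (by decide +kernel)

theorem st_A97 : ST_A97 :=
  ⟨all_97_74, all_97_21, all_97_22⟩

end Pool.Agent.Helper2.EG
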