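import Pool.Agent.Helper2.EG.Defs

/-!
MP_861132_nt: statements of the modules.
-/

set_option autoImplicit false

namespace Pool.Agent.Helper2.EG

/-! ### A. partial solutions -/

/-- a partial solution with `j` terms `≤ m`, `Q = n x_1 ... x_j` and remainder `c / Q` -/
def St (n j Q c m : ℕ) : Prop :=
  ∃ x : Fin j → ℕ, StrictMono x ∧ (∀ i, 1 < x i ∧ x i ≤ m) ∧ n * ∏ i, x i = Q ∧
    ∑ i, (1 : ℚ) / (x i : ℚ) = 1 / (n : ℚ) - (c : ℚ) / (Q : ℚ)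

/-- a solution with `j` terms and `P = n x_1 ... x_j` -/
def Lv (n j P : ℕ) : Prop := St n j P 1 P

def ST_FIN : Prop := ∀ n s : ℕ, 0 < n → (Sol n s).Finite

def ST_STEP : Prop := ∀ n j Q c m y u : ℕ, 0 < n → St n j Q c m → m < y → 1 < y →
  c * y = Q + u → St n (j + 1) (Q * y) u y

def ST_LV : Prop := (∀ n j Q c m m' : ℕ, m ≤ m' → St n j Q c m → St n j Q c m') ∧
  (∀ n : ℕ, 0 < n → Lv n 0 n) ∧
  (∀ n j Q c m : ℕ, 0 < n → St n j Q c m → n * 2 ^ j ≤ Q) ∧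
  (∀ n j P : ℕ, 0 < n → Lv n j P → (Sol n j).Nonempty)

/-- a solution which is not the standard prolongation gives strict growth -/
def ST_TERM : Prop := ST_FIN → ∀ n s Q c m y : ℕ, 0 < n → St n s Q c m → m < y → 1 < y → 1 < c →
  c * y = Q + 1 → Om n s < Om n (s + 1)

/-! ### B. moves -/

def MV (n : ℕ) : Prop :=
  (∀ j P, Lv n j P → Lv n (j + 1) (P * (P + 1))) ∧
  (∀ j P a b, Lv n j P → 0 < a → a < b → a * b = P ^ 2 + 1 → Lv n (j + 2) (P * (P + a) * (P + b))) ∧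
  (∀ j P a b, Lv n j P → 1 < a → a < b → a * b = P ^ 2 + 1 → Om n (j + 1) < Om n (j + 2)) ∧
  (∀ j P c u, Lv n j P → 0 < c → 1 < u → c.Coprime u → c ≤ P → u ≤ P → c ∣ P ^ 2 + u →
    u ∣ (P * (P + c)) ^ 2 + c → Om n (j + 2) < Om n (j + 3)) ∧
  (∀ s, 0 < Om n s)

def ST_MOV : Prop := ST_FIN → ST_STEP → ST_LV → ST_TERM → ∀ n : ℕ, 0 < n → MV n

/-- tail with the prime five -/
def ST_T5 : Prop := ∀ n P : ℕ, 0 < n → MV n → ST_LV → Lv n 3 P → P % 25 = 18 → Good n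

/-- the standard step -/
def fA (x : ℕ) : ℕ := x * (x + 1)

/-- tail with a pattern `c, u` -/
def ST_TP : Prop := ∀ n c u L X : ℕ, 0 < n → MV n → 0 < c → 1 < u → c.Coprime u → 0 < L →
  c ∣ X ^ 2 + u → u ∣ (X * (X + c)) ^ 2 + c → fA^[L] X ≡ X [MOD c * u] →
  (∀ t, t < L → ∃ P, Lv n 3 P ∧ c ≤ P ∧ u ≤ P ∧ fA^[t] P ≡ X [MOD c * u]) →
  (∃ P a b, Lv n 3 P ∧ 1 < a ∧ a < b ∧ a * b = P ^ 2 + 1) → Good n

/-- the three step move from `n` -/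
def ST_STR : Prop := ST_STEP → ST_LV → ∀ n q u : ℕ, 0 < n → 1 < q → q ≤ n → 0 < u → u ≤ n →
  q.Coprime u → q ∣ n ^ 2 + u → u ∣ (n * (n + q)) ^ 2 + q →
  ∃ P, Lv n 3 P ∧ P * (u * q ^ 2) =
    (n * (n + q)) * (n * (n + q) + u) * ((n * (n + q)) * (n * (n + q) + u) + q)

/-! ### C. steering -/

/-- the residue `τ` is reached from `ν` modulo `m` by the classes `c, u` -/
def Rch (m ν c u τ : ℕ) : Prop := c.Coprime m ∧ u.Coprime m ∧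
  τ * (u * c ^ 2) ≡ (ν * (ν + c)) * (ν * (ν + c) + u) * ((ν * (ν + c)) * (ν * (ν + c) + u) + c)
    [MOD m]

/-- `n` has three step moves in all residue classes modulo `m` -/
def Typ (m n : ℕ) : Prop := ∀ κ ρ : ℕ, κ.Coprime m → ρ.Coprime m → ∃ q u : ℕ, 1 < q ∧ q ≤ n ∧
  0 < u ∧ u ≤ n ∧ q.Coprime u ∧ q ∣ n ^ 2 + u ∧ u ∣ (n * (n + q)) ^ 2 + q ∧
  q ≡ κ [MOD m] ∧ u ≡ ρ [MOD m]

def ST_HIT : Prop := ST_STR → ST_STEP → ST_LV → ∀ m n τ : ℕ, 0 < m → 0 < n → Typ m n →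
  (∃ c u, Rch m n c u τ) → ∃ P, Lv n 3 P ∧ P ≡ τ [MOD m]

/-- all classes prime to `m` reach the residue `τ` -/
def All (m τ : ℕ) : Prop := ∀ n : ℕ, n.Coprime m → ∃ c u, Rch m n c u τ

def ST_CRT : Prop := ∀ m m' τ : ℕ, 0 < m → 0 < m' → m.Coprime m' → All m τ → All m' τ →
  All (m * m') τ

/-- only the class of `τ` matters -/
def ST_AMOD : Prop := ∀ m τ τ' : ℕ, τ ≡ τ' [MOD m] → All m τ → All m τ'

def ST_A25 : Prop := All 25 18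
/-- pattern (97, 53): period 2 -/
def ST_A97 : Prop := All 97 74 ∧ All 97 21 ∧ All 97 22
def ST_A53 : Prop := All 53 29 ∧ All 53 22
/-- pattern (41, 409): period 3 -/
def ST_A41 : Prop := All 41 1 ∧ All 41 2 ∧ All 41 6 ∧ All 41 9
def ST_A409 : Prop := All 409 13 ∧ All 409 182 ∧ All 409 177
/-- pattern (373, 73): period 4 -/
def ST_A373 : Prop := All 373 182 ∧ All 373 109 ∧ All 373 54 ∧ All 373 359
def ST_A73 : Prop := All 73 45 ∧ All 73 26 ∧ All 73 27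

/-! ### D. density -/

/-- density zero -/
def DZ (B : Set ℕ) : Prop := ∀ ε : ℝ, 0 < ε → ∃ N0 : ℕ, ∀ N : ℕ, N0 ≤ N →
  ((B ∩ Set.Iic N).ncard : ℝ) ≤ ε * N

def ST_DU : Prop := (∀ A B : Set ℕ, A ⊆ B → DZ B → DZ A) ∧ (∀ A B : Set ℕ, DZ A → DZ B → DZ (A ∪ B)) ∧
  (∀ A : Set ℕ, A.Finite → DZ A) ∧
  (∀ (K : ℕ) (F : ℕ → Set ℕ), (∀ k < K, DZ (F k)) → DZ {n | ∃ k < K, n ∈ F k})

/-- counting by the Chinese remainder theorem -/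
def ST_CNT : Prop := ∀ (K : ℕ) (m : ℕ → ℕ) (A : ℕ → Finset ℕ), (∀ k < K, 0 < m k) →
  (∀ i < K, ∀ j < K, i ≠ j → (m i).Coprime (m j)) → (∀ k < K, A k ⊆ Finset.range (m k)) →
  ∀ N : ℕ, {n : ℕ | n ≤ N ∧ ∀ k < K, n % m k ∈ A k}.ncard ≤
    (∏ k ∈ Finset.range K, (A k).card) * (N / (∏ k ∈ Finset.range K, m k) + 1)

/-- a set which lies in small sets of residues has density zero -/
def ST_DEN : Prop := ST_CNT → ∀ B : Set ℕ, (∀ δ : ℝ, 0 < δ → ∃ (K : ℕ) (m : ℕ → ℕ) (A : ℕ → Finset ℕ),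
  (∀ k < K, 0 < m k) ∧ (∀ i < K, ∀ j < K, i ≠ j → (m i).Coprime (m j)) ∧
  (∀ k < K, A k ⊆ Finset.range (m k)) ∧
  (∏ k ∈ Finset.range K, ((A k).card : ℝ) / (m k : ℝ)) ≤ δ ∧
  ∃ C : Set ℕ, DZ C ∧ ∀ n ∈ B, n ∈ C ∨ ∀ k < K, n % m k ∈ A k) → DZ B

/-- the sum of the reciprocals of the primes in a residue class diverges, as a product -/
def ST_DIR : Prop := ∀ m r : ℕ, 0 < m → r.Coprime m → ∀ δ : ℝ, 0 < δ → ∃ z : ℕ,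
  (∏ q ∈ (Finset.range z).filter (fun q => q.Prime ∧ q ≡ r [MOD m]), (1 - 1 / (q : ℝ))) ≤ δ

/-- almost all `n` have a prime divisor of `n ^ 2 + u` in the class `r` -/
def ST_QD : Prop := ST_DU → ST_CNT → ST_DEN → ST_DIR → ∀ m r u : ℕ, 0 < m → r.Coprime m →
  (∀ q : ℕ, q.Prime → q ≡ r [MOD m] → ∃ t : ℕ, q ∣ t ^ 2 + u) →
  DZ {n | ¬ ∃ q : ℕ, q.Prime ∧ q ≡ r [MOD m] ∧ q ≤ n ∧ q ∣ n ^ 2 + u}

/-- reciprocity -/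
def ST_REC : Prop := ∀ u q : ℕ, u.Prime → q.Prime → u % 4 = 1 → q % 4 = 1 →
  (∃ a : ℕ, ¬ u ∣ a ∧ q ≡ a ^ 2 [MOD u]) → ∃ t : ℕ, q ∣ t ^ 2 + u

/-- at most three quarters of the residues are bad -/
def ST_BAD : Prop := ∀ u : ℕ, u.Prime → u % 3 = 2 → 7 ≤ u → ∃ A : Finset ℕ,
  A ⊆ Finset.range u ∧ 4 * A.card ≤ 3 * u ∧
  ∀ n : ℕ, (u ∣ n ∨ ¬ ∃ s : ℕ, s ^ 2 ≡ 4 * n ^ 3 + 1 [MOD u]) → n % u ∈ A

/-- the residue of `q` modulo `u` -/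
def ST_C0 : Prop := ∀ u n : ℕ, u.Prime → u % 4 = 1 → ¬ u ∣ n →
  (∃ s : ℕ, s ^ 2 ≡ 4 * n ^ 3 + 1 [MOD u]) →
  ∃ c a : ℕ, c.Coprime u ∧ ¬ u ∣ a ∧ c ≡ a ^ 2 [MOD u] ∧
    ∀ q : ℕ, q ≡ c [MOD u] → u ∣ (n * (n + q)) ^ 2 + q

/-- for a fixed prime `u`: almost all `n` which are not bad modulo `u` have the move -/
def OKu (m κ u n : ℕ) : Prop := ∃ q : ℕ, 1 < q ∧ q ≤ n ∧ u ≤ n ∧ q.Coprime u ∧ q ∣ n ^ 2 + u ∧
  u ∣ (n * (n + q)) ^ 2 + q ∧ q ≡ κ [MOD m]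

def ST_ONE : Prop := ST_DU → ST_QD → ST_CNT → ST_DEN → ST_DIR → ST_REC → ST_C0 →
  ∀ m κ u : ℕ, 0 < m → m.Coprime 2 → κ.Coprime m → u.Prime → u % 4 = 1 → u.Coprime m →
  DZ {n | ¬ u ∣ n ∧ (∃ s : ℕ, s ^ 2 ≡ 4 * n ^ 3 + 1 [MOD u]) ∧ ¬ OKu m κ u n}

def ST_TY : Prop := ST_DU → ST_CNT → ST_DEN → ST_BAD → ST_ONE → ST_QD → ST_DIR → ST_REC → ST_C0 →
  ∀ m : ℕ, 0 < m → m.Coprime 6 → DZ {n | ¬ Typ m n}

/-! ### E. conclusions -/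

/-- what the conclusions use -/
def Base : Prop := (∀ n : ℕ, 0 < n → MV n) ∧ ST_LV ∧
  (∀ m n τ : ℕ, 0 < m → 0 < n → Typ m n → (∃ c u, Rch m n c u τ) → ∃ P, Lv n 3 P ∧ P ≡ τ [MOD m])

/-- numbers prime to five -/
def ST_G5 : Prop := Base → ST_T5 → ST_A25 → ∀ n : ℕ, 0 < n → ¬ 5 ∣ n → Typ 25 n → Good n
/-- numbers prime to the moduli of the patterns -/
def ST_GA : Prop := Base → ST_TP → ST_CRT → ST_AMOD → ST_A97 → ST_A53 →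
  ∀ n : ℕ, 500 ≤ n → ¬ 97 ∣ n → ¬ 53 ∣ n → Typ 5141 n → Good n
def ST_GB : Prop := Base → ST_TP → ST_CRT → ST_AMOD → ST_A41 → ST_A409 →
  ∀ n : ℕ, 500 ≤ n → ¬ 41 ∣ n → ¬ 409 ∣ n → Typ 16769 n → Good n
def ST_GC : Prop := Base → ST_TP → ST_CRT → ST_AMOD → ST_A373 → ST_A73 →
  ∀ n : ℕ, 500 ≤ n → ¬ 373 ∣ n → ¬ 73 ∣ n → Typ 27229 n → Good n

/-- the bad numbers have small density -/
def ST_UD : Prop := ST_DU → ∀ B : Set ℕ, DZ (B ∩ {n | ¬ 5 ∣ n}) → DZ (B ∩ {n | ¬ 97 ∣ n ∧ ¬ 53 ∣ n}) →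
  DZ (B ∩ {n | ¬ 41 ∣ n ∧ ¬ 409 ∣ n}) → DZ (B ∩ {n | ¬ 373 ∣ n ∧ ¬ 73 ∣ n}) →
  ∃ N0 : ℕ, ∀ N : ℕ, N0 ≤ N → ((B ∩ Set.Iic N).ncard : ℝ) ≤ 3 / 10 ^ 6 * N

end Pool.Agent.Helper2.EG
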