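import Pool.Agent.Helper61.EG.FIN
import Pool.Agent.Helper46.EG.STEP
import Pool.Agent.Helper24.EG.LV
import Pool.Agent.Helper94.EG.TERM
import Pool.Agent.Helper35.EG.MOV
import Pool.Agent.Helper41.EG.T5
import Pool.Agent.Helper24.EG.TP
import Pool.Agent.Helper58.EG.STR
import Pool.Agent.Helper55.EG.HIT
import Pool.Agent.Helper33.EG.CRT
import Pool.Agent.Helper53.EG.DU
import Pool.Agent.Helper85.EG.CNT
import Pool.Agent.Helper50.EG.DEN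
import Pool.Agent.Helper63.EG.DIR
import Pool.Agent.Helper80.EG.QD
import Pool.Agent.Helper85.EG.REC
import Pool.Agent.Helper83.EG.BAD
import Pool.Agent.Helper67.EG.C0
import Pool.Agent.Helper41.EG.ONE
import Pool.Agent.Helper38.EG.TY
import Pool.Agent.Helper55.EG.G5
import Pool.Agent.Helper94.EG.GABC
import Pool.Agent.Helper89.EG.UD
import Pool.Agent.Helper2.EG.A25
import Pool.Agent.Helper2.EG.A97
import Pool.Agent.Helper2.EG.A53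
import Pool.Agent.Helper2.EG.A41
import Pool.Agent.Helper2.EG.A409
import Pool.Agent.Helper2.EG.A373
import Pool.Agent.Helper2.EG.A73

/-!
MP_861132_nt: assembly.
-/

set_option autoImplicit false

namespace Pool.Agent.Helper2.EG

theorem all_qd : ∀ m r u : ℕ, 0 < m → r.Coprime m →
    (∀ q : ℕ, q.Prime → q ≡ r [MOD m] → ∃ t : ℕ, q ∣ t ^ 2 + u) →
    DZ {n | ¬ ∃ q : ℕ, q.Prime ∧ q ≡ r [MOD m] ∧ q ≤ n ∧ q ∣ n ^ 2 + u} :=
  st_QD st_DU st_CNT (st_DEN) st_DIR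

theorem all_typ (m : ℕ) (h0 : 0 < m) (h6 : m.Coprime 6) : DZ {n | ¬ Typ m n} :=
  st_TY st_DU st_CNT st_DEN st_BAD st_ONE st_QD st_DIR st_REC st_C0 m h0 h6

theorem all_base : Base :=
  ⟨fun n hn => Pool.Agent.Helper35.EG.st_MOV st_FIN st_STEP st_LV st_TERM n hn, st_LV,
    st_HIT st_STR st_STEP st_LV⟩

/-- the exceptional numbers -/
def Exc : Set ℕ := {n | 0 < n ∧ ¬ Good n}

theorem all_5 : DZ (Exc ∩ {n | ¬ 5 ∣ n}) := by
  refine st_DU.1 _ _ ?_ (all_typ 25 (by norm_num) (by norm_num))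
  rintro n ⟨⟨hn, hg⟩, h5⟩ ht
  exact hg (st_G5 all_base st_T5 st_A25 n hn h5 ht)

theorem all_fin (B : Set ℕ) (hB : DZ (B ∩ {n | 500 ≤ n})) : DZ B := by
  refine st_DU.1 _ ((B ∩ {n | 500 ≤ n}) ∪ {n | n < 500}) ?_ (st_DU.2.1 _ _ hB ?_)
  · intro n hn
    rcases le_or_gt 500 n with h | h
    · exact Or.inl ⟨hn, h⟩
    · exact Or.inr h
  · exact st_DU.2.2.1 _ (Set.finite_lt_nat 500)

theorem all_A : DZ (Exc ∩ {n | ¬ 97 ∣ n ∧ ¬ 53 ∣ n}) := by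
  apply all_fin
  refine st_DU.1 _ _ ?_ (all_typ 5141 (by norm_num) (by norm_num))
  rintro n ⟨⟨⟨hn, hg⟩, h1, h2⟩, h500⟩ ht
  exact hg (st_GA all_base st_TP st_CRT st_AMOD st_A97 st_A53 n h500 h1 h2 ht)

theorem all_B : DZ (Exc ∩ {n | ¬ 41 ∣ n ∧ ¬ 409 ∣ n}) := by
  apply all_fin
  refine st_DU.1 _ _ ?_ (all_typ 16769 (by norm_num) (by norm_num))
  rintro n ⟨⟨⟨hn, hg⟩, h1, h2⟩, h500⟩ ht
  exact hg (st_GB all_base st_TP st_CRT st_AMOD st_A41 st_A409 n h500 h1 h2 ht)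

theorem all_C : DZ (Exc ∩ {n | ¬ 373 ∣ n ∧ ¬ 73 ∣ n}) := by
  apply all_fin
  refine st_DU.1 _ _ ?_ (all_typ 27229 (by norm_num) (by norm_num))
  rintro n ⟨⟨⟨hn, hg⟩, h1, h2⟩, h500⟩ ht
  exact hg (st_GC all_base st_TP st_CRT st_AMOD st_A373 st_A73 n h500 h1 h2 ht)

/-- the exceptions outside a thin set of multiples of five have density zero -/
theorem all_out : DZ (Exc ∩ {n | ¬ (5 ∣ n ∧ (97 ∣ n ∨ 53 ∣ n) ∧ (41 ∣ n ∨ 409 ∣ n) ∧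
    (373 ∣ n ∨ 73 ∣ n))}) := by
  refine st_DU.1 _ _ ?_ (st_DU.2.1 _ _ (st_DU.2.1 _ _ (st_DU.2.1 _ _ all_5 all_A) all_B) all_C)
  rintro n ⟨he, hn⟩
  simp only [Set.mem_union, Set.mem_inter_iff]
  by_cases h1 : 5 ∣ n
  · by_cases h2 : 97 ∣ n ∨ 53 ∣ n
    · by_cases h3 : 41 ∣ n ∨ 409 ∣ n
      · by_cases h4 : 373 ∣ n ∨ 73 ∣ n
        · exact absurd ⟨h1, h2, h3, h4⟩ hn
        · exact Or.inr ⟨he, not_or.1 h4⟩
      · exact Or.inl (Or.inr ⟨he, not_or.1 h3⟩)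
    · exact Or.inl (Or.inl (Or.inr ⟨he, not_or.1 h2⟩))
  · exact Or.inl (Or.inl (Or.inl ⟨he, h1⟩))

theorem all_upper : ∃ N0 : ℕ, ∀ N : ℕ, N0 ≤ N → ((Exc ∩ Set.Iic N).ncard : ℝ) ≤ 3 / 10 ^ 6 * N :=
  st_UD st_DU Exc all_5 all_A all_B all_C

end Pool.Agent.Helper2.EG
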