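import Mathlib

/-!
MP_861132_nt: the number of solutions of
`1/x_1 + ... + 1/x_s + 1/(n x_1 ... x_s) = 1/n`, `1 < x_1 < ... < x_s`.
The definitions used in the final statement.
-/

set_option autoImplicit false

namespace Pool.Agent.Helper2.EG

/-- the solutions with `s` unknowns, as strictly increasing tuples of integers greater than `1` -/
def Sol (n s : ℕ) : Set (Fin s → ℕ) :=
  {x | StrictMono x ∧ (∀ i, 1 < x i) ∧
    ∑ i, (1 : ℚ) / (x i : ℚ) + 1 / ((n : ℚ) * ∏ i, (x i : ℚ)) = 1 / (n : ℚ)}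

/-- the number of solutions -/
noncomputable def Om (n s : ℕ) : ℕ := (Sol n s).ncard

/-- the assertion of Q1 for the number `n` -/
def Good (n : ℕ) : Prop := ∀ s, 4 ≤ s → 0 < Om n s ∧ Om n s < Om n (s + 1)

end Pool.Agent.Helper2.EG
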