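import Pool.Agent.Helper2.EG.Stmts

/-!
Checking residue tables.
-/

set_option autoImplicit false

namespace Pool.Agent.Helper2.EG

/-- the entry `c, u` is right for `n` -/
def tab_ok (m τ n c u : ℕ) : Bool :=
  Nat.gcd c m == 1 && Nat.gcd u m == 1 &&
    (τ * (u * c ^ 2)) % m ==
    ((n * (n + c)) * (n * (n + c) + u) * ((n * (n + c)) * (n * (n + c) + u) + c)) % m

def tab_chk (m τ : ℕ) : ℕ → List (ℕ × ℕ) → Bool
  | _, [] => true
  | n, (c, u) :: l => (Nat.gcd n m != 1 || tab_ok m τ n c u) && tab_chk m τ (n + 1) l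

theorem tab_chk_spec (m τ : ℕ) (l : List (ℕ × ℕ)) : ∀ n : ℕ, tab_chk m τ n l = true →
    ∀ i : ℕ, i < l.length → (n + i).Coprime m → ∃ c u, tab_ok m τ (n + i) c u = true := by
  induction l with
  | nil => intro n _ i hi; simp at hi
  | cons p l ih =>
    obtain ⟨c, u⟩ := p
    intro n h i hi hc
    rw [tab_chk, Bool.and_eq_true, Bool.or_eq_true] at h
    cases i with
    | zero =>
      rcases h.1 with h1 | h1
      · exact absurd hc (by simpa [Nat.Coprime] using h1)
      · exact ⟨c, u, by simpa using h1⟩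
    | succ i =>
      have := ih (n + 1) h.2 i (by simpa using hi) (by
        rw [show n + 1 + i = n + (i + 1) by ring]; exact hc)
      rwa [show n + 1 + i = n + (i + 1) by ring] at this

theorem tab_all {m τ : ℕ} (l : List (ℕ × ℕ)) (hm : 0 < m) (hl : l.length = m)
    (h : tab_chk m τ 0 l = true) : All m τ := by
  intro n hn
  have hn' : (n % m).Coprime m := by
    rw [Nat.Coprime, ← Nat.gcd_rec, Nat.gcd_comm]
    exact hn
  obtain ⟨c, u, hcu⟩ := tab_chk_spec m τ l 0 h (n % m) (by rw [hl]; exact Nat.mod_lt _ hm)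
    (by rw [zero_add]; exact hn')
  rw [zero_add, tab_ok, Bool.and_eq_true, Bool.and_eq_true, beq_iff_eq, beq_iff_eq,
    beq_iff_eq] at hcu
  refine ⟨c, u, hcu.1.1, hcu.1.2, ?_⟩
  have hnm : n % m ≡ n [MOD m] := Nat.mod_modEq n m
  have h1 : n % m * (n % m + c) ≡ n * (n + c) [MOD m] := hnm.mul (hnm.add_right c)
  have h2 : n % m * (n % m + c) + u ≡ n * (n + c) + u [MOD m] := h1.add_right u
  exact Nat.ModEq.trans hcu.2 ((h1.mul h2).mul ((h1.mul h2).add_right c))

end Pool.Agent.Helper2.EG
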